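import Pool.Agent.H41.CL.Defs2

/-! Job CONJ (MP_76d27f_co, helper41): involutions and configurations. -/

set_option autoImplicit false

namespace Pool.Agent.H935.CL

open Finset Pool.Agent.H41.CL

/-- the flip of the positions -/
def fl (k : ℕ) : Equiv.Perm (Q k) where
  toFun q := (q.1, !q.2)
  invFun q := (q.1, !q.2)
  left_inv q := by simp
  right_inv q := by simp

theorem fl_fl {k : ℕ} (q : Q k) : fl k (fl k q) = q := by
  simp [fl]

theorem fl_ne {k : ℕ} (q : Q k) : fl k q ≠ q := by
  intro h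
  have := congrArg Prod.snd h
  simp [fl] at this

theorem mate_eq {k : ℕ} (τ : Q k ≃ P k) (p : P k) : mate τ p = τ (fl k (τ.symm p)) := rfl

/-- the cycle type of a fixed point free involution -/
theorem cycleType_inv {α : Type*} [Fintype α] [DecidableEq α] (σ : Equiv.Perm α)
    (h : ∀ x, σ (σ x) = x) (h' : ∀ x, σ x ≠ x) :
    σ.cycleType = Multiset.replicate (Fintype.card α / 2) 2 := by
  have h2 : σ ^ 2 = 1 := by
    ext x
    rw [pow_two, Equiv.Perm.mul_apply, h]
    rfl
  have h3 : ∀ n ∈ σ.cycleType, n = 2 := by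
    intro n hn
    have h4 := Equiv.Perm.two_le_of_mem_cycleType hn
    have h5 := (Equiv.Perm.dvd_of_mem_cycleType hn).trans (orderOf_dvd_of_pow_eq_one h2)
    exact le_antisymm (Nat.le_of_dvd (by norm_num) h5) h4
  have h4 : σ.cycleType = Multiset.replicate (Multiset.card σ.cycleType) 2 :=
    Multiset.eq_replicate_card.2 h3
  have h5 : σ.cycleType.sum = Fintype.card α := by
    rw [Equiv.Perm.sum_cycleType]
    have : σ.support = Finset.univ := by
      ext x
      simp [h' x]
    rw [this, Finset.card_univ]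
  rw [h4, Multiset.sum_replicate, smul_eq_mul] at h5
  have h6 : Multiset.card σ.cycleType = Fintype.card α / 2 := by omega
  rw [h4, h6]

theorem exists_conj {k : ℕ} (σ : P k → P k) (h : ∀ p, σ (σ p) = p) (h' : ∀ p, σ p ≠ p) :
    ∃ τ : Q k ≃ P k, ∀ p, mate τ p = σ p := by
  classical
  let s : Equiv.Perm (P k) := ⟨σ, σ, h, h⟩
  have hcard : Fintype.card (Q k) = Fintype.card (P k) := by
    simp only [Fintype.card_prod, Fintype.card_fin, Fintype.card_bool]
    ring
  let e : Q k ≃ P k := Fintype.equivOfCardEq hcard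
  let f : Equiv.Perm (P k) := e.symm.trans ((fl k).trans e)
  have hf : ∀ p, f p = e (fl k (e.symm p)) := fun p => rfl
  have hc : IsConj f s := by
    rw [Equiv.Perm.isConj_iff_cycleType_eq, cycleType_inv f, cycleType_inv s h h']
    · intro p
      rw [hf, hf, Equiv.symm_apply_apply, fl_fl, Equiv.apply_symm_apply]
    · intro p hp
      rw [hf] at hp
      exact fl_ne (e.symm p) (by rw [Equiv.eq_symm_apply]; exact hp)
  obtain ⟨c, hc⟩ := isConj_iff.1 hc
  refine ⟨e.trans c, fun p => ?_⟩
  have h1 : s p = (c * f * c⁻¹) p := by rw [hc]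
  have h2 : σ p = s p := rfl
  rw [h2, h1, mate_eq]
  rfl

/-- **job CONJ** -/
theorem t_CONJ : S_CONJ := by
  classical
  intro k
  refine ⟨{ψ : Equiv.Perm (Q k) | ∀ q, ψ (fl k q) = fl k (ψ q)}.ncard, ?_, ?_⟩
  · rw [Set.ncard_pos (Set.toFinite _)]
    exact ⟨1, fun q => rfl⟩
  · intro σ h h'
    obtain ⟨τ0, h0⟩ := exists_conj σ h h'
    symm
    refine Set.ncard_congr (fun ψ _ => ψ.trans τ0) ?_ ?_ ?_
    · intro ψ hψ p
      have hψ' : ∀ q, ψ (fl k q) = fl k (ψ q) := hψ
      rw [← h0 p, mate_eq, mate_eq]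
      show τ0 (ψ (fl k (ψ.symm (τ0.symm p)))) = _
      rw [hψ', Equiv.apply_symm_apply]
    · intro ψ ψ' _ _ he
      ext1 q
      have := congrArg (fun t : Q k ≃ P k => t q) he
      simpa using this
    · intro τ hτ
      have hτ' : ∀ p, mate τ p = σ p := hτ
      refine ⟨τ.trans τ0.symm, ?_, ?_⟩
      · intro q
        show τ0.symm (τ (fl k q)) = fl k (τ0.symm (τ q))
        have h1 := hτ' (τ q)
        rw [mate_eq, Equiv.symm_apply_apply, ← h0 (τ q), mate_eq] at h1
        rw [h1, Equiv.symm_apply_apply]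
      · ext1 q
        show τ0 (τ0.symm (τ q)) = τ q
        rw [Equiv.apply_symm_apply]

end Pool.Agent.H935.CL
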